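import Pool.Agent.Helper54.FP.Inst
import Pool.Agent.Helper55.FP.Left

/-!
# FP-22: specialization of fundamental matrices
-/

set_option autoImplicit false
set_option linter.unusedSectionVars false

namespace Pool.Agent.Helper54.FP

section
variable {p : ℕ} [Fact p.Prime] {G : Type} [Group G] [Fintype G] [DecidableEq G]

/-- equalities of polynomials with coefficients in the relation ring are transported -/
private theorem spec_rel_poly {A1 Ω1 Ω2 : Type} [CommRing A1] [CommRing Ω1] [CommRing Ω2]
    {φ1 : A1 →+* Ω1} {ψ : A1 →+* Ω2} {Y1 : Matrix G G Ω1} {Y2 : Matrix G G Ω2}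
    (hrel : Rel φ1 Y1 ψ Y2) {P Q : Polynomial (MvPolynomial (G × G) A1)}
    (h : P.map (ev φ1 Y1) = Q.map (ev φ1 Y1)) : P.map (ev ψ Y2) = Q.map (ev ψ Y2) := by
  ext n
  rw [Polynomial.coeff_map, Polynomial.coeff_map]
  refine hrel.eq ?_
  have := congrArg (fun P => Polynomial.coeff P n) h
  simpa only [Polynomial.coeff_map] using this

/-- value of the polynomial `F` in the entries of `Y`, when the entries are values of polynomials at
`θ` -/
private theorem spec_eval {K κ Ω2 : Type} [CommRing K] [CommRing κ] [Algebra K κ] [CommRing Ω2]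
    (φh : κ →+* Ω2) (φ2 : K →+* Ω2) (hφ : ∀ x, φh (algebraMap K κ x) = φ2 x) (θ : Ω2)
    (qh : G → G → Polynomial κ) (Y : Matrix G G Ω2) (hY : ∀ i j, (qh i j).eval₂ φh θ = Y i j)
    (F : MvPolynomial (G × G) K) :
    (MvPolynomial.eval₂ ((Polynomial.C : κ →+* Polynomial κ).comp (algebraMap K κ))
      (fun ij => qh ij.1 ij.2) F).eval₂ φh θ = ev φ2 Y F := by
  have h1 := MvPolynomial.eval₂_comp_left (Polynomial.eval₂RingHom φh θ)
    ((Polynomial.C : κ →+* Polynomial κ).comp (algebraMap K κ)) (fun ij => qh ij.1 ij.2) F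
  rw [Polynomial.coe_eval₂RingHom] at h1
  rw [h1, ev, MvPolynomial.coe_eval₂Hom]
  congr 1
  · ext x
    simp [hφ]
  · funext ij
    simp [hY]

theorem fm_specialize {A1 Ω1 Ω2 k : Type} [CommRing A1] [Field k] [CharP k p] [CommRing Ω1]
    [Field Ω2] (μ : A1 →+* Polynomial k) {φ1 : A1 →+* Ω1} {φ2 : Polynomial k →+* Ω2}
    (hφ2 : Function.Injective φ2) {Y1 : Matrix G G Ω1} {Y2 : Matrix G G Ω2} {H : Subgroup G}
    [Fintype H] (hrel : Rel φ1 Y1 (φ2.comp μ) Y2)
    (hsym : ∀ g ∈ H, ∀ F : MvPolynomial (G × G) A1, ev φ1 Y1 F = 0 → ev φ1 (actM g Y1) F = 0)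
    (hunit : IsUnit Y2)
    (hfrob : ∃ Ψ : Matrix G G (Polynomial k), IsUnit Ψ ∧
      Y2.map (fun y => y ^ p) = Ψ.map φ2 * Y2)
    (Θ : MvPolynomial (G × G) A1) (r A B : Polynomial A1) (q : G → G → Polynomial A1) (d e : A1)
    (hr1 : r.Monic)
    (hr2 : r.map φ1 = ∏ g : H, (Polynomial.X - Polynomial.C (ev φ1 (actM (g : G) Y1) Θ)))
    (hq : ∀ i j, φ1 d * Y1 i j = (q i j).eval₂ φ1 (ev φ1 Y1 Θ))
    (hAB : A * r + B * Polynomial.derivative r = Polynomial.C e)
    (hd : μ d ≠ 0) (he : μ e ≠ 0) (hirr : Irreducible (r.map μ)) :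
    FM p φ2 Y2 H := by
  classical
  set ψ : A1 →+* Ω2 := φ2.comp μ with hψ
  set θ : H → Ω2 := fun g => ev ψ (actM (g : G) Y2) Θ with hθ
  set κ := FractionRing (Polynomial k) with hκ
  set φh : κ →+* Ω2 := IsFractionRing.lift hφ2 with hφh
  have hφhK : ∀ x, φh (algebraMap (Polynomial k) κ x) = φ2 x :=
    fun x => IsFractionRing.lift_algebraMap hφ2 x
  -- the product formula
  have h1 : r.map ψ = ∏ g : H, (Polynomial.X - Polynomial.C (θ g)) := by
    have h2 : (r.map (MvPolynomial.C : A1 →+* MvPolynomial (G × G) A1)).map (ev φ1 Y1) =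
        (∏ g : H, (Polynomial.X - Polynomial.C (sh (g : G) Θ))).map (ev φ1 Y1) := by
      rw [Polynomial.map_map, Polynomial.map_prod]
      have h3 : (ev φ1 Y1).comp (MvPolynomial.C : A1 →+* MvPolynomial (G × G) A1) = φ1 := by
        ext x; simp
      rw [h3, hr2]
      refine Finset.prod_congr rfl fun g _ => ?_
      rw [Polynomial.map_sub, Polynomial.map_X, Polynomial.map_C, ev_sh]
    have h4 := spec_rel_poly hrel h2
    rw [Polynomial.map_map, Polynomial.map_prod] at h4
    have h3 : (ev ψ Y2).comp (MvPolynomial.C : A1 →+* MvPolynomial (G × G) A1) = ψ := by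
      ext x; simp
    rw [h3] at h4
    rw [h4]
    refine Finset.prod_congr rfl fun g _ => ?_
    rw [Polynomial.map_sub, Polynomial.map_X, Polynomial.map_C, ev_sh]
  -- the entries of `Y2` and of its conjugates
  have h2 : ∀ (g : H) (i j : G), ψ d * Y2 i ((g : G) * j) = (q i j).eval₂ ψ (θ g) := by
    intro g i j
    set F : MvPolynomial (G × G) A1 := MvPolynomial.C d * MvPolynomial.X (i, j) -
      (q i j).eval₂ MvPolynomial.C Θ with hF
    have hev : ∀ {Ω : Type} [CommRing Ω] (φ : A1 →+* Ω) (Y : Matrix G G Ω),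
        ev φ Y F = φ d * Y i j - (q i j).eval₂ φ (ev φ Y Θ) := by
      intro Ω _ φ Y
      rw [hF, map_sub, map_mul, ev_C, ev_X, Polynomial.hom_eval₂]
      congr 2
      ext x; simp
    have h3 : ev φ1 Y1 F = 0 := by rw [hev, hq, sub_self]
    have h4 : ev φ1 Y1 (sh (g : G) F) = 0 := by
      rw [ev_sh]
      exact hsym g g.2 F h3
    have h5 := hrel _ h4
    rw [ev_sh, hev, sub_eq_zero] at h5
    exact h5
  set qh : G → G → Polynomial κ := fun i j =>
    Polynomial.C ((algebraMap (Polynomial k) κ (μ d))⁻¹) *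
      ((q i j).map μ).map (algebraMap (Polynomial k) κ) with hqh
  have hmu : algebraMap (Polynomial k) κ (μ d) ≠ 0 := by
    intro h
    exact hd (IsFractionRing.injective (Polynomial k) κ (h.trans (map_zero _).symm))
  have hcomp : (φh.comp (algebraMap (Polynomial k) κ)).comp μ = ψ := by
    ext x
    simp [hφhK, hψ]
  have hY : ∀ (g : H) (i j : G), (qh i j).eval₂ φh (θ g) = actM (g : G) Y2 i j := by
    intro g i j
    rw [hqh]
    simp only [Polynomial.eval₂_mul, Polynomial.eval₂_C]
    rw [Polynomial.eval₂_map, Polynomial.eval₂_map, hcomp, ← h2, actM_apply, map_inv₀,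
      hφhK]
    have h3 : φ2 (μ d) ≠ 0 := by
      rw [← hφhK]
      exact (map_ne_zero φh).2 hmu
    show (φ2 (μ d))⁻¹ * (φ2 (μ d) * _) = _
    rw [inv_mul_cancel_left₀ h3]
  set Fh : MvPolynomial (G × G) (Polynomial k) → Polynomial κ := fun F =>
    MvPolynomial.eval₂ ((Polynomial.C : κ →+* Polynomial κ).comp
      (algebraMap (Polynomial k) κ)) (fun ij => qh ij.1 ij.2) F with hFh
  have hFe : ∀ (g : H) (F : MvPolynomial (G × G) (Polynomial k)),
      (Fh F).eval₂ φh (θ g) = ev φ2 (actM (g : G) Y2) F :=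
    fun g F => spec_eval φh φ2 hφhK (θ g) qh _ (hY g) F
  -- the irreducible polynomial
  set rh : Polynomial κ := (r.map μ).map (algebraMap (Polynomial k) κ) with hrh
  have hrhm : rh.Monic := (hr1.map μ).map _
  have hrirr : Irreducible rh :=
    (Polynomial.Monic.irreducible_iff_irreducible_map_fraction_map (hr1.map μ)).1 hirr
  have hrmap : rh.map φh = ∏ g : H, (Polynomial.X - Polynomial.C (θ g)) := by
    rw [hrh, Polynomial.map_map, Polynomial.map_map, ← h1]
    congr 1
  have hroot : ∀ g : H, rh.eval₂ φh (θ g) = 0 := by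
    intro g
    rw [← Polynomial.eval_map, hrmap, Polynomial.eval_prod]
    exact Finset.prod_eq_zero (Finset.mem_univ g) (by simp)
  have hev1 : ∀ F, ev φ2 Y2 F = (Fh F).eval₂ φh (θ 1) := by
    intro F
    rw [hFe]
    simp
  refine ⟨hunit, hfrob, ?_, ?_⟩
  · -- symmetry
    intro g hg F hF
    rw [hev1] at hF
    rw [← hFe ⟨g, hg⟩ F]
    have hdvd : rh ∣ Fh F := by
      rcases (EuclideanDomain.dvd_or_coprime rh (Fh F) hrirr).symm with h | h
      · exfalso
        obtain ⟨a, b, hab⟩ := h
        have h3 := congrArg (fun P => Polynomial.eval₂ φh (θ 1) P) hab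
        simp only [Polynomial.eval₂_add, Polynomial.eval₂_mul, hroot, hF, mul_zero, add_zero,
          Polynomial.eval₂_one] at h3
        exact zero_ne_one h3
      · exact h
    obtain ⟨c, hc⟩ := hdvd
    rw [hc, Polynomial.eval₂_mul, hroot, zero_mul]
  · -- fixed elements
    intro F hF
    have hinj : Function.Injective θ := by
      have hsep : (∏ g : H, (Polynomial.X - Polynomial.C (θ g))).Separable := by
        rw [← h1]
        have h3 := congrArg (Polynomial.map ψ) hAB
        rw [Polynomial.map_add, Polynomial.map_mul, Polynomial.map_mul, Polynomial.map_C,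
          ← Polynomial.derivative_map] at h3
        have he' : ψ e ≠ 0 := by
          intro h
          exact he (hφ2 (h.trans (map_zero _).symm))
        refine ⟨Polynomial.C (ψ e)⁻¹ * A.map ψ, Polynomial.C (ψ e)⁻¹ * B.map ψ, ?_⟩
        rw [mul_assoc, mul_assoc, ← mul_add, h3, ← Polynomial.C_mul, inv_mul_cancel₀ he',
          Polynomial.C_1]
      exact hsep.injective_of_prod_X_sub_C
    -- the remainder
    set Q : Polynomial κ := Fh F %ₘ rh with hQ
    have hQe : ∀ g : H, (Q.map φh).eval (θ g) = ev φ2 Y2 F := by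
      intro g
      rw [Polynomial.eval_map, ← hF g g.2, ← hFe g F]
      conv_rhs => rw [← Polynomial.modByMonic_add_div (Fh F) rh]
      rw [Polynomial.eval₂_add, Polynomial.eval₂_mul, hroot, zero_mul, add_zero]
    have hcard : rh.natDegree = Fintype.card H := by
      have h3 := congrArg Polynomial.natDegree hrmap
      rw [Polynomial.natDegree_map, Polynomial.natDegree_prod_of_monic _ _
        (fun g _ => Polynomial.monic_X_sub_C _)] at h3
      simpa using h3
    have hpos : 0 < Fintype.card H := Fintype.card_pos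
    have hQd : Q.natDegree < Fintype.card H := by
      rw [← hcard]
      exact Polynomial.natDegree_modByMonic_lt _ hrhm (by
        intro h
        rw [h, Polynomial.natDegree_one] at hcard
        omega)
    have hQc : Q.map φh = Polynomial.C (ev φ2 Y2 F) := by
      refine Polynomial.eq_of_natDegree_lt_card_of_eval_eq _ _ hinj (fun g => ?_) ?_
      · rw [hQe, Polynomial.eval_C]
      · rw [Polynomial.natDegree_C, Polynomial.natDegree_map]
        exact max_lt hQd hpos
    have hx : φh (Q.coeff 0) = ev φ2 Y2 F := by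
      have h3 := congrArg (fun P => Polynomial.coeff P 0) hQc
      simpa using h3
    -- integrality
    obtain ⟨Ψ, -, hΨ⟩ := hfrob
    obtain ⟨P, hPm, hP⟩ := integral_of_frob φ2 Y2 Ψ hΨ F
    have hint : IsIntegral (Polynomial k) (Q.coeff 0) := by
      refine ⟨P, hPm, ?_⟩
      apply φh.injective
      rw [Polynomial.hom_eval₂, map_zero, hx]
      have h3 : φh.comp (algebraMap (Polynomial k) κ) = φ2 := RingHom.ext hφhK
      rw [h3]
      exact hP
    obtain ⟨y, hy⟩ := IsIntegrallyClosed.algebraMap_eq_of_integral hint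
    exact ⟨y, by rw [← hx, ← hy, hφhK]⟩

end

end Pool.Agent.Helper54.FP
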